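import Pool.Agent.Lib.MP_bf61d2_nt.Artin.Defs63

set_option autoImplicit false

/-!
Artin twists near the edge, uniformly in the height (MP_bf61d2_nt): definitions.
-/

namespace Pool.Agent.Lib.MP_bf61d2_nt.Artin

open NumberField IsDedekindDomain Filter Topology Polynomial Module
open Pool.Agent.Lib.MP_bf61d2_nt.Perm

/-- `log log (|u| + 20)`, at least one. -/
noncomputable def ll (u : ℝ) : ℝ := Real.log (Real.log (|u| + 20))

/-- Equidistribution, uniform in the twist `n ^ (-i u)`, with an error of size `log log`. -/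
def CU {K M : Type*} [Field K] [NumberField K] [Field M] [NumberField M] [Algebra K M]
    [Fintype Gal(M/K)] (Fr : HeightOneSpectrum (𝓞 K) → Gal(M/K)) (f : Gal(M/K) → ℂ) : Prop :=
  ∃ A : ℝ, 0 ≤ A ∧ ∀ x u : ℝ, 0 < x → x ≤ 1 →
    ‖SC (1 + x) (fun v => f (Fr v) * ph u (nm v)) -
      (∑ g, f g) / Fintype.card Gal(M/K) * SC (K := K) (1 + x) (fun v => ph u (nm v))‖ ≤ A * ll u

/-- The same with an additional error `ε log (1 / x)`. -/
def WU {K M : Type*} [Field K] [NumberField K] [Field M] [NumberField M] [Algebra K M]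
    [Fintype Gal(M/K)] (Fr : HeightOneSpectrum (𝓞 K) → Gal(M/K)) (f : Gal(M/K) → ℂ) : Prop :=
  ∀ ε : ℝ, 0 < ε → ∃ A : ℝ, 0 ≤ A ∧ ∀ x u : ℝ, 0 < x → x ≤ 1 →
    ‖SC (1 + x) (fun v => f (Fr v) * ph u (nm v)) -
      (∑ g, f g) / Fintype.card Gal(M/K) * SC (K := K) (1 + x) (fun v => ph u (nm v))‖ ≤
      ε * Real.log (1 / x) + A * ll u

end Pool.Agent.Lib.MP_bf61d2_nt.Artin
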